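import Pool.Agent.KC2.Taylor

/-! Newton iteration in the ideal of the coordinate cross. -/

set_option autoImplicit false

namespace Pool.Agent.KC2

open MvPolynomial

theorem newton (I : Ideal A2) (F₁ F₂ G₁ G₂ : A2) (hG : br G₁ G₂ = 1)
    (h1 : G₁ - F₁ ∈ I) (h2 : G₂ - F₂ ∈ I) (N : ℕ) :
    ∃ v : Fin 2 → A2, v 0 - X 0 ∈ I ∧ v 1 - X 1 ∈ I ∧
      aeval v G₁ - F₁ ∈ I ^ (N + 1) ∧ aeval v G₂ - F₂ ∈ I ^ (N + 1) := by
  induction N with
  | zero =>
    refine ⟨X, by simp, by simp, ?_, ?_⟩ <;> simpa [aeval_X_left]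
  | succ N ih =>
    obtain ⟨v, hv0, hv1, hF1, hF2⟩ := ih
    set E1 := aeval v G₁ - F₁ with hE1
    set E2 := aeval v G₂ - F₂ with hE2
    -- correction
    let e : Fin 2 → A2 := ![-(aeval v (pderiv 1 G₂) * E1 - aeval v (pderiv 1 G₁) * E2),
      -(- (aeval v (pderiv 0 G₂) * E1) + aeval v (pderiv 0 G₁) * E2)]
    have he : ∀ i, e i ∈ I ^ (N + 1) := by
      intro i
      fin_cases i
      · show -(aeval v (pderiv 1 G₂) * E1 - aeval v (pderiv 1 G₁) * E2) ∈ I ^ (N+1)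
        exact neg_mem (Ideal.sub_mem _ (Ideal.mul_mem_left _ _ hF1) (Ideal.mul_mem_left _ _ hF2))
      · show -(- (aeval v (pderiv 0 G₂) * E1) + aeval v (pderiv 0 G₁) * E2) ∈ I ^ (N+1)
        exact neg_mem (Ideal.add_mem _ (neg_mem (Ideal.mul_mem_left _ _ hF1))
          (Ideal.mul_mem_left _ _ hF2))
    have hI : I ^ (N + 1) ≤ I := Ideal.pow_le_self (by omega)
    have hdet : aeval v (pderiv 0 G₁) * aeval v (pderiv 1 G₂)
        - aeval v (pderiv 1 G₁) * aeval v (pderiv 0 G₂) = (1 : A2) := by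
      have := congrArg (aeval v) hG
      simpa [br] using this
    have hle : (I ^ (N + 1)) ^ 2 ≤ I ^ (N + 1 + 1) := by
      rw [← pow_mul]; exact Ideal.pow_le_pow_right (by omega)
    refine ⟨fun i => v i + e i, ?_, ?_, ?_, ?_⟩
    · have : v 0 + e 0 - X 0 = (v 0 - X 0) + e 0 := by ring
      show v 0 + e 0 - X 0 ∈ I
      rw [this]; exact Ideal.add_mem _ hv0 (hI (he 0))
    · have : v 1 + e 1 - X 1 = (v 1 - X 1) + e 1 := by ring
      show v 1 + e 1 - X 1 ∈ I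
      rw [this]; exact Ideal.add_mem _ hv1 (hI (he 1))
    · have ht := hle (taylor (I ^ (N + 1)) v e he G₁)
      have : aeval (fun i => v i + e i) G₁ - F₁ = aeval (fun i => v i + e i) G₁ - aeval v G₁
          - (e 0 * aeval v (pderiv 0 G₁) + e 1 * aeval v (pderiv 1 G₁)) := by
        have he0 : e 0 = -(aeval v (pderiv 1 G₂) * E1 - aeval v (pderiv 1 G₁) * E2) := rfl
        have he1 : e 1 = -(- (aeval v (pderiv 0 G₂) * E1) + aeval v (pderiv 0 G₁) * E2) := rfl
        rw [he0, he1]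
        have hE : F₁ = aeval v G₁ - E1 := by rw [hE1]; ring
        rw [hE]
        linear_combination (-E1) * hdet
      rw [this]; exact ht
    · have ht := hle (taylor (I ^ (N + 1)) v e he G₂)
      have : aeval (fun i => v i + e i) G₂ - F₂ = aeval (fun i => v i + e i) G₂ - aeval v G₂
          - (e 0 * aeval v (pderiv 0 G₂) + e 1 * aeval v (pderiv 1 G₂)) := by
        have he0 : e 0 = -(aeval v (pderiv 1 G₂) * E1 - aeval v (pderiv 1 G₁) * E2) := rfl
        have he1 : e 1 = -(- (aeval v (pderiv 0 G₂) * E1) + aeval v (pderiv 0 G₁) * E2) := rfl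
        rw [he0, he1]
        have hE : F₂ = aeval v G₂ - E2 := by rw [hE2]; ring
        rw [hE]
        linear_combination (-E2) * hdet
      rw [this]; exact ht

/-- Derivatives of elements of `(g)^(N+1)` lie in `(g)^N`. -/
theorem pderiv_mem (g : A2) (N : ℕ) (i : Fin 2) (p : A2) (hp : p ∈ Ideal.span {g} ^ (N + 1)) :
    pderiv i p ∈ Ideal.span {g} ^ N := by
  rw [Ideal.span_singleton_pow, Ideal.mem_span_singleton] at hp ⊢
  obtain ⟨q, rfl⟩ := hp
  rw [Derivation.leibniz, Derivation.leibniz_pow]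
  refine dvd_add ?_ ?_
  · exact Dvd.dvd.mul_right (pow_dvd_pow _ (by omega)) _
  · simp only [smul_eq_mul, nsmul_eq_mul, Nat.add_sub_cancel]
    exact ⟨q * ((N + 1 : ℕ) : A2) * pderiv i g, by push_cast; ring⟩

/-- The Jacobian of the approximate solution is `1` up to high order. -/
theorem br_approx (g F₁ F₂ G₁ G₂ : A2) (hF : br F₁ F₂ = 1) (hG : br G₁ G₂ = 1) (N : ℕ)
    (v : Fin 2 → A2) (h1 : aeval v G₁ - F₁ ∈ Ideal.span {g} ^ (N + 1))
    (h2 : aeval v G₂ - F₂ ∈ Ideal.span {g} ^ (N + 1)) :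
    br (v 0) (v 1) - 1 ∈ Ideal.span {g} ^ N := by
  have hb : br (aeval v G₁) (aeval v G₂) = br (v 0) (v 1) := by
    rw [br_aeval, hG]; simp
  rw [← hb, ← hF]
  set J := Ideal.span {g}
  have d10 := pderiv_mem g N 0 _ h1
  have d11 := pderiv_mem g N 1 _ h1
  have d20 := pderiv_mem g N 0 _ h2
  have d21 := pderiv_mem g N 1 _ h2
  rw [map_sub] at d10 d11 d20 d21
  have key : br (aeval v G₁) (aeval v G₂) - br F₁ F₂ =
      (pderiv 0 (aeval v G₁) - pderiv 0 F₁) * pderiv 1 (aeval v G₂)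
      + pderiv 0 F₁ * (pderiv 1 (aeval v G₂) - pderiv 1 F₂)
      - ((pderiv 1 (aeval v G₁) - pderiv 1 F₁) * pderiv 0 (aeval v G₂)
      + pderiv 1 F₁ * (pderiv 0 (aeval v G₂) - pderiv 0 F₂)) := by
    simp only [br]; ring
  rw [key]
  exact Ideal.sub_mem _
    (Ideal.add_mem _ (Ideal.mul_mem_right _ _ d10) (Ideal.mul_mem_left _ _ d21))
    (Ideal.add_mem _ (Ideal.mul_mem_right _ _ d11) (Ideal.mul_mem_left _ _ d20))

end Pool.Agent.KC2
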