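import Pool.Agent.KC2.Pure
import Pool.Agent.KC2.Newton
import Pool.Agent.KellerCross.Final

/-! Keller maps agreeing on the cross. -/

set_option autoImplicit false

noncomputable section

namespace Pool.Agent.KC2

open MvPolynomial

lemma mem_cross (p : A2) (h : ∀ m : Fin 2 →₀ ℕ, m 0 = 0 ∨ m 1 = 0 → coeff m p = 0) :
    p ∈ Ideal.span {(X 0 * X 1 : A2)} := by
  classical
  rw [Ideal.mem_span_singleton]
  have e : (X 0 * X 1 : A2) = monomial (Finsupp.single 0 1 + Finsupp.single 1 1) 1 := by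
    rw [X, X, monomial_mul, one_mul]
  rw [e, monomial_one_dvd_iff_modMonomial_eq_zero]
  ext m
  by_cases hm : Finsupp.single 0 1 + Finsupp.single 1 1 ≤ m
  · rw [coeff_modMonomial_of_le _ hm]; simp
  · rw [coeff_modMonomial_of_not_le _ hm]
    rw [h m]
    · simp
    · by_contra hcon
      push Not at hcon
      apply hm
      intro i
      fin_cases i
      · simp; omega
      · simp; omega

/-- exchange of the variables -/
def sw : A2 →ₐ[ℂ] A2 := rename (Equiv.swap (0 : Fin 2) 1)

/-- exchange of the exponents -/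
def swm (m : Fin 2 →₀ ℕ) : Fin 2 →₀ ℕ := Finsupp.mapDomain (Equiv.swap (0 : Fin 2) 1) m

lemma swm_0 (m : Fin 2 →₀ ℕ) : swm m 0 = m 1 := by
  have := Finsupp.mapDomain_apply (Equiv.swap (0 : Fin 2) 1).injective m 1
  rw [Equiv.swap_apply_right] at this
  exact this

lemma swm_1 (m : Fin 2 →₀ ℕ) : swm m 1 = m 0 := by
  have := Finsupp.mapDomain_apply (Equiv.swap (0 : Fin 2) 1).injective m 0
  rw [Equiv.swap_apply_left] at this
  exact this

lemma swm_swm (m : Fin 2 →₀ ℕ) : swm (swm m) = m := by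
  ext i; fin_cases i
  · show swm (swm m) 0 = m 0
    rw [swm_0, swm_1]
  · show swm (swm m) 1 = m 1
    rw [swm_1, swm_0]

lemma swm_single (a : ℕ) : swm (Finsupp.single 0 a) = Finsupp.single 1 a := by
  rw [swm, Finsupp.mapDomain_single, Equiv.swap_apply_left]

lemma sw_coeff (P : A2) (m : Fin 2 →₀ ℕ) : coeff m (sw P) = coeff (swm m) P := by
  have := coeff_rename_mapDomain (Equiv.swap (0 : Fin 2) 1) (Equiv.swap (0 : Fin 2) 1).injective P
    (swm m)
  rw [← this]
  congr 1
  exact (swm_swm m).symm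

lemma sw_X0 : sw (X 0) = X 1 := by
  rw [sw, rename_X, Equiv.swap_apply_left]

lemma sw_X1 : sw (X 1) = X 0 := by
  rw [sw, rename_X, Equiv.swap_apply_right]

lemma pderiv_sw0 (P : A2) : pderiv 0 (sw P) = sw (pderiv 1 P) := by
  have := pderiv_rename (Equiv.swap (0 : Fin 2) 1).injective 1 P
  rw [Equiv.swap_apply_right] at this
  exact this

lemma pderiv_sw1 (P : A2) : pderiv 1 (sw P) = sw (pderiv 0 P) := by
  have := pderiv_rename (Equiv.swap (0 : Fin 2) 1).injective 0 P
  rw [Equiv.swap_apply_left] at this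
  exact this

lemma br_sw (P Q : A2) : br (sw P) (sw Q) = - sw (br P Q) := by
  simp only [br, pderiv_sw0, pderiv_sw1, map_sub, map_mul]; ring

lemma aeval_sw (v : Fin 2 → A2) (P : A2) :
    aeval ![sw (v 1), sw (v 0)] (sw P) = sw (aeval v P) := by
  have h : ((aeval ![sw (v 1), sw (v 0)] : A2 →ₐ[ℂ] A2).comp sw) = sw.comp (aeval v) := by
    apply MvPolynomial.algHom_ext
    intro i
    fin_cases i
    · show aeval ![sw (v 1), sw (v 0)] (sw (X 0)) = sw (aeval v (X 0))
      rw [sw_X0]; simp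
    · show aeval ![sw (v 1), sw (v 0)] (sw (X 1)) = sw (aeval v (X 1))
      rw [sw_X1]; simp
  exact DFunLike.congr_fun h P

lemma sw_mem (N : ℕ) (p : A2) (h : p ∈ Ideal.span {(X 0 * X 1 : A2)} ^ N) :
    sw p ∈ Ideal.span {(X 0 * X 1 : A2)} ^ N := by
  rw [Ideal.span_singleton_pow, Ideal.mem_span_singleton] at h ⊢
  obtain ⟨q, rfl⟩ := h
  refine ⟨sw q, ?_⟩
  rw [map_mul, map_pow, map_mul, sw_X0, sw_X1, mul_comm (X 1) (X 0)]

/-- the strip condition along the axis `y = 0` -/
def Good (F : Fin 2 → A2) : Prop :=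
  ∃ k : Fin 2, ∃ a : ℕ, 1 ≤ a ∧ coeff (Finsupp.single 0 a) (F k) ≠ 0 ∧
    ∀ m, coeff m (F k) ≠ 0 → m 0 ≤ m 1 + a

/-- one sided bound -/
theorem side (F G : Fin 2 → A2) (κ : ℂ) (hκ : κ ≠ 0) (hF : br (F 0) (F 1) = C κ)
    (hG : br (G 0) (G 1) = C κ)
    (hcr : ∀ i, ∀ m : Fin 2 →₀ ℕ, m 0 = 0 ∨ m 1 = 0 → coeff m (F i) = coeff m (G i))
    (hFg : Good F) (hGg : Good G) (N : ℕ) (v : Fin 2 → A2)
    (hv0 : v 0 - X 0 ∈ Ideal.span {(X 0 * X 1 : A2)})
    (hv1 : v 1 - X 1 ∈ Ideal.span {(X 0 * X 1 : A2)})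
    (hE : ∀ i, aeval v (G i) - F i ∈ Ideal.span {(X 0 * X 1 : A2)} ^ N)
    (hbr : br (v 0) (v 1) - 1 ∈ Ideal.span {(X 0 * X 1 : A2)} ^ N) :
    WV 0 N (v 0 - X 0) ∧ WV (-2) N (v 1 - X 1) := by
  -- all brackets
  have brall : ∀ (H : Fin 2 → A2), br (H 0) (H 1) = C κ → ∀ k : Fin 2, ∃ κ' : ℂ, κ' ≠ 0 ∧
      br (H k) (H (k + 1)) = C κ' := by
    intro H hH k
    fin_cases k
    · exact ⟨κ, hκ, hH⟩
    · refine ⟨-κ, neg_ne_zero.2 hκ, ?_⟩
      show br (H 1) (H 0) = C (-κ)
      rw [map_neg, ← hH]; simp only [br]; ring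
  obtain ⟨k, a, ha, hca, hFa⟩ := hFg
  obtain ⟨l, b, hb, hcb, hGb⟩ := hGg
  -- the map `G` satisfies the condition with the index `k` as well
  have hGk : ∀ m, coeff m (G k) ≠ 0 → m 0 ≤ m 1 + a := by
    have hax : ∀ j : ℕ, a < j → coeff (Finsupp.single 0 j) (G k) = 0 := by
      intro j hj
      rw [← hcr k _ (Or.inr (by simp))]
      by_contra hne
      have := hFa _ hne
      simp at this
      omega
    by_cases hkl : k = l
    · subst hkl
      -- then `b = a`
      have hba : b ≤ a := by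
        by_contra hlt
        exact hcb (hax b (by omega))
      intro m hm
      have := hGb m hm
      omega
    · have hk : k = l + 1 := by
        revert hkl
        fin_cases k <;> fin_cases l <;> simp
      obtain ⟨κ', hκ', hbr'⟩ := brall G hG l
      rw [← hk] at hbr'
      exact partner (G l) (G k) κ' hbr' b a hb ha hcb
        (lead_pure (G l) (G k) κ' hκ' hbr' b hcb hGb) hax
  obtain ⟨κ₁, hκ₁, hbr₁⟩ := brall F hF k
  obtain ⟨κ₂, hκ₂, hbr₂⟩ := brall G hG k
  have hcG : coeff (Finsupp.single 0 a) (G k) = coeff (Finsupp.single 0 a) (F k) :=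
    (hcr k _ (Or.inr (by simp))).symm
  exact strip_bound (F k) (G k) a ha (coeff (Finsupp.single 0 a) (F k)) hca
    (lead_pure (F k) _ κ₁ hκ₁ hbr₁ a hca hFa) rfl
    (lead_pure (G k) _ κ₂ hκ₂ hbr₂ a (by rw [hcG]; exact hca) hGk) hcG N v hv0 hv1 (hE k) hbr

/-- polynomials all of whose monomials have an exponent at least `N` -/
def JN (N : ℕ) : Ideal A2 where
  carrier := {p | ∀ m : Fin 2 →₀ ℕ, m 0 < N → m 1 < N → coeff m p = 0}
  zero_mem' := by intro m _ _; simp
  add_mem' := by
    intro p q hp hq m h0 h1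
    rw [coeff_add, hp m h0 h1, hq m h0 h1, add_zero]
  smul_mem' := by
    intro c p hp m h0 h1
    by_contra hne
    obtain ⟨x, y, hxy, -, hy⟩ := exists_of_coeff_mul (f := c) (g := p) hne
    apply hy
    subst hxy
    simp only [Finsupp.add_apply] at h0 h1
    exact hp y (by omega) (by omega)

lemma mem_JN {N : ℕ} {p : A2} : p ∈ JN N ↔ ∀ m : Fin 2 →₀ ℕ, m 0 < N → m 1 < N → coeff m p = 0 :=
  Iff.rfl

lemma cross_le_JN (N : ℕ) : Ideal.span {(X 0 * X 1 : A2)} ^ N ≤ JN N := by
  intro p hp m h0 h1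
  by_contra hne
  have := WV.of_mem hp (-(N : ℤ) - 1) m h1 hne
  omega

lemma aeval_sub_mem (J : Ideal A2) (v : Fin 2 → A2) (hv : ∀ i, v i - X i ∈ J) (P : A2) :
    aeval v P - P ∈ J := by
  induction P using MvPolynomial.induction_on with
  | C a => simp
  | add p q hp hq =>
    have := J.add_mem hp hq
    rw [map_add]
    convert this using 1; ring
  | mul_X p i hp =>
    have := J.add_mem (J.mul_mem_right (v i) hp) (J.mul_mem_left p (hv i))
    rw [map_mul, aeval_X]
    convert this using 1; ring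

theorem main (F G : Fin 2 → A2) (hF : br (F 0) (F 1) = 1) (hG : br (G 0) (G 1) = 1)
    (hcr : ∀ i, ∀ m : Fin 2 →₀ ℕ, m 0 = 0 ∨ m 1 = 0 → coeff m (F i) = coeff m (G i))
    (hF0 : Good F) (hG0 : Good G) (hF1 : Good fun i => sw (F i)) (hG1 : Good fun i => sw (G i)) :
    F = G := by
  have hmem : ∀ i, G i - F i ∈ Ideal.span {(X 0 * X 1 : A2)} := by
    intro i
    apply mem_cross
    intro m hm
    rw [coeff_sub, hcr i m hm, sub_self]
  have key : ∀ N, ∀ i, F i - G i ∈ JN N := by
    intro N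
    obtain ⟨v, hv0, hv1, h1, h2⟩ := newton _ (F 0) (F 1) (G 0) (G 1) hG (hmem 0) (hmem 1) N
    have hbr := br_approx (X 0 * X 1) (F 0) (F 1) (G 0) (G 1) hF hG N v h1 h2
    have hle : Ideal.span {(X 0 * X 1 : A2)} ^ (N + 1) ≤ Ideal.span {(X 0 * X 1 : A2)} ^ N :=
      Ideal.pow_le_pow_right (by omega)
    have hE : ∀ i, aeval v (G i) - F i ∈ Ideal.span {(X 0 * X 1 : A2)} ^ N := by
      intro i; fin_cases i
      · exact hle h1
      · exact hle h2
    have s1 := side F G 1 one_ne_zero (by rw [hF, map_one]) (by rw [hG, map_one]) hcr hF0 hG0 N v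
      hv0 hv1 hE hbr
    have s2 := side (fun i => sw (F i)) (fun i => sw (G i)) (-1) (by norm_num)
      (by rw [br_sw, hF]; simp) (by rw [br_sw, hG]; simp)
      (by
        intro i m hm
        show coeff m (sw (F i)) = coeff m (sw (G i))
        rw [sw_coeff, sw_coeff]
        apply hcr
        rw [swm_0, swm_1]
        exact hm.symm) hF1 hG1 N ![sw (v 1), sw (v 0)]
      (by
        have := sw_mem 1 _ (by rw [pow_one]; exact hv1)
        rw [map_sub, sw_X1, pow_one] at this
        exact this)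
      (by
        have := sw_mem 1 _ (by rw [pow_one]; exact hv0)
        rw [map_sub, sw_X0, pow_one] at this
        exact this)
      (by
        intro i
        show aeval ![sw (v 1), sw (v 0)] (sw (G i)) - sw (F i) ∈ _
        rw [aeval_sw, ← map_sub]
        exact sw_mem N _ (hE i))
      (by
        have := sw_mem N _ hbr
        rw [map_sub, map_one] at this
        show br (sw (v 1)) (sw (v 0)) - 1 ∈ _
        have e : br (sw (v 1)) (sw (v 0)) = sw (br (v 0) (v 1)) := by
          rw [br_sw, ← map_neg]; congr 1; simp only [br]; ring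
        rw [e]; exact this)
    have hvJ : ∀ i, v i - X i ∈ JN N := by
      intro i
      fin_cases i
      · intro m h0 h1
        by_contra hne
        have a1 := s1.1 m h1 hne
        have a2 := s2.2 (swm m) (by rw [swm_1]; exact h0) (by
          show coeff (swm m) (sw (v 0) - X 1) ≠ 0
          rw [← sw_X0, ← map_sub, sw_coeff, swm_swm]
          exact hne)
        rw [swm_0, swm_1] at a2
        omega
      · intro m h0 h1
        by_contra hne
        have a1 := s1.2 m h1 hne
        have a2 := s2.1 (swm m) (by rw [swm_1]; exact h0) (by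
          show coeff (swm m) (sw (v 1) - X 0) ≠ 0
          rw [← sw_X1, ← map_sub, sw_coeff, swm_swm]
          exact hne)
        rw [swm_0, swm_1] at a2
        omega
    intro i
    have e1 := aeval_sub_mem (JN N) v hvJ (G i)
    have e2 := cross_le_JN N (hE i)
    have := (JN N).sub_mem e1 e2
    convert this using 1; ring
  funext i
  rw [← sub_eq_zero]
  ext m
  rw [coeff_zero]
  exact key (max (m 0) (m 1) + 1) i m (by omega) (by omega)

end Pool.Agent.KC2
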