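import Mathlib

/-! Euler derivations on Hahn series. -/

set_option autoImplicit false

noncomputable section

namespace Pool.Agent.KC2

open HahnSeries

variable {Γ : Type*} [AddCommGroup Γ] [LinearOrder Γ] [IsOrderedAddMonoid Γ]

/-- multiply the coefficient at `γ` by `w γ` -/
def dfun (w : Γ →+ ℂ) (f : HahnSeries Γ ℂ) : HahnSeries Γ ℂ where
  coeff γ := w γ * f.coeff γ
  isPWO_support' := f.isPWO_support.mono (by
    intro γ hγ
    simp only [Function.mem_support] at hγ
    exact right_ne_zero_of_mul hγ)

lemma dfun_coeff (w : Γ →+ ℂ) (f : HahnSeries Γ ℂ) (γ : Γ) :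
    (dfun w f).coeff γ = w γ * f.coeff γ := rfl

lemma dfun_support (w : Γ →+ ℂ) (f : HahnSeries Γ ℂ) : (dfun w f).support ⊆ f.support := by
  intro γ hγ
  rw [HahnSeries.mem_support, dfun_coeff] at hγ
  exact right_ne_zero_of_mul hγ

lemma dfun_mul (w : Γ →+ ℂ) (f g : HahnSeries Γ ℂ) :
    dfun w (f * g) = f * dfun w g + dfun w f * g := by
  ext γ
  rw [dfun_coeff, HahnSeries.coeff_add, HahnSeries.coeff_mul,
    HahnSeries.coeff_mul_right' g.isPWO_support (dfun_support w g),
    HahnSeries.coeff_mul_left' f.isPWO_support (dfun_support w f), Finset.mul_sum,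
    ← Finset.sum_add_distrib]
  refine Finset.sum_congr rfl fun ij hij => ?_
  have h : ij.1 + ij.2 = γ := by
    have := hij
    simp at this
    exact this.2.2
  rw [dfun_coeff, dfun_coeff, ← h, map_add]
  ring

/-- the Euler derivation attached to a weight -/
def eul (w : Γ →+ ℂ) : Derivation ℂ (HahnSeries Γ ℂ) (HahnSeries Γ ℂ) :=
  Derivation.mk' ({
    toFun := dfun w
    map_add' := by
      intro f g; ext γ
      simp only [dfun_coeff, HahnSeries.coeff_add]; ring
    map_smul' := by
      intro c f; ext γ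
      simp only [dfun_coeff, HahnSeries.coeff_smul, RingHom.id_apply, smul_eq_mul]; ring } :
      HahnSeries Γ ℂ →ₗ[ℂ] HahnSeries Γ ℂ) (by
    intro f g
    show dfun w (f * g) = f • dfun w g + g • dfun w f
    rw [dfun_mul, smul_eq_mul, smul_eq_mul, mul_comm g])

lemma eul_coeff (w : Γ →+ ℂ) (f : HahnSeries Γ ℂ) (γ : Γ) :
    (eul w f).coeff γ = w γ * f.coeff γ := rfl

lemma eul_comm (w u : Γ →+ ℂ) (f : HahnSeries Γ ℂ) : eul w (eul u f) = eul u (eul w f) := by
  ext γ
  simp only [eul_coeff]; ring

lemma eul_single (w : Γ →+ ℂ) (γ : Γ) (c : ℂ) :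
    eul w (single γ c) = single γ (w γ * c) := by
  ext δ
  rw [eul_coeff, coeff_single, coeff_single]
  split_ifs with h
  · rw [h]
  · ring

/-- commuting logarithmic derivatives -/
lemma eul_logder (w u : Γ →+ ℂ) (P : HahnSeries Γ ℂ) (hP : P ≠ 0) :
    eul w (eul u P / P) = eul u (eul w P / P) := by
  have key : ∀ a b : Γ →+ ℂ, eul a (eul b P / P) = (eul a (eul b P) * P - eul a P * eul b P) / P ^ 2 := by
    intro a b
    have h1 : eul b P = (eul b P / P) * P := by field_simp
    have h2 : eul a (eul b P) = (eul b P / P) * eul a P + P * eul a (eul b P / P) := by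
      conv_lhs => rw [h1]
      rw [Derivation.leibniz, smul_eq_mul, smul_eq_mul]
    rw [h2]; field_simp; ring
  rw [key, key, eul_comm, mul_comm (eul w P)]

lemma logder_coeff (w : Γ →+ ℂ) (P : HahnSeries Γ ℂ) (hP : P ≠ 0) :
    (∀ γ < 0, (eul w P / P).coeff γ = 0) ∧ (eul w P / P).coeff 0 = w P.order := by
  set g := eul w P / P with hg
  have hgP : g * P = eul w P := by rw [hg]; field_simp
  have hlead : P.leadingCoeff ≠ 0 := by
    rwa [Ne, leadingCoeff_eq_zero]
  by_cases hg0 : g = 0
  · rw [hg0]
    refine ⟨fun γ _ => by simp, ?_⟩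
    have : (eul w P).coeff P.order = 0 := by rw [← hgP, hg0]; simp
    rw [eul_coeff, ← leadingCoeff_eq] at this
    rcases mul_eq_zero.1 this with h | h
    · simp [h]
    · exact absurd h hlead
  · have hne : eul w P ≠ 0 := by rw [← hgP]; exact mul_ne_zero hg0 hP
    have hord : (eul w P).order = g.order + P.order := by rw [← hgP, order_mul hg0 hP]
    have hle : P.order ≤ (eul w P).order := by
      refine order_le_of_coeff_ne_zero ?_
      have : (eul w P).coeff (eul w P).order ≠ 0 := by
        rw [← leadingCoeff_eq]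
        rwa [Ne, leadingCoeff_eq_zero]
      rw [eul_coeff] at this
      exact right_ne_zero_of_mul this
    have hg1 : 0 ≤ g.order := by
      rw [hord] at hle
      exact nonneg_of_le_add_left hle
    refine ⟨fun γ hγ => coeff_eq_zero_of_lt_order (hγ.trans_le hg1), ?_⟩
    rcases hg1.eq_or_lt with h0 | hpos
    · have h1 := coeff_mul_order_add_order g P
      rw [hgP, ← h0, zero_add, eul_coeff, ← leadingCoeff_eq] at h1
      have h2 : w P.order = g.leadingCoeff := mul_right_cancel₀ hlead h1
      rw [h2, leadingCoeff_eq, ← h0]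
    · rw [coeff_eq_zero_of_lt_order hpos]
      have h1 : (eul w P).coeff P.order = 0 := by
        apply coeff_eq_zero_of_lt_order
        rw [hord]
        exact lt_add_of_pos_left _ hpos
      rw [eul_coeff, ← leadingCoeff_eq] at h1
      rcases mul_eq_zero.1 h1 with h | h
      · exact h.symm
      · exact absurd h hlead

end Pool.Agent.KC2
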