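import Pool.Agent.KC2.Taylor

/-! The polynomial Poincare lemma in two variables. -/

set_option autoImplicit false

namespace Pool.Agent.KC2

open MvPolynomial

lemma pderiv_comm' (R : A2) : pderiv 0 (pderiv 1 R) = pderiv 1 (pderiv 0 R) := by
  ext m
  simp only [coeff_pderiv]
  rw [add_right_comm m (Finsupp.single 1 1) (Finsupp.single 0 1)]
  simp [Finsupp.single_apply]
  ring

/-- antiderivative in the variable `i` -/
lemma exists_primitive (i : Fin 2) (b : A2) : ∃ f : A2, pderiv i f = b := by
  induction b using MvPolynomial.induction_on' with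
  | monomial m c =>
    refine ⟨monomial (m + Finsupp.single i 1) (c / ((m i : ℂ) + 1)), ?_⟩
    rw [pderiv_monomial]
    have h : (m + Finsupp.single i 1) - Finsupp.single i 1 = m := add_tsub_cancel_right _ _
    rw [h]
    congr 1
    have : ((m i : ℂ) + 1) ≠ 0 := Nat.cast_add_one_ne_zero _
    simp
    field_simp
  | add p q hp hq =>
    obtain ⟨f, hf⟩ := hp
    obtain ⟨g, hg⟩ := hq
    exact ⟨f + g, by rw [map_add, hf, hg]⟩

/-- `X 0`-antiderivative free of `X 1` -/
lemma exists_primitive0 (a : A2) (ha : pderiv 1 a = 0) :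
    ∃ f : A2, pderiv 0 f = a ∧ pderiv 1 f = 0 := by
  classical
  have hsupp : ∀ m ∈ a.support, m 1 = 0 := by
    intro m hm
    by_contra h
    set m' : Fin 2 →₀ ℕ := m - Finsupp.single 1 1 with hm'
    have hle : Finsupp.single 1 1 ≤ m := by
      rw [Finsupp.single_le_iff]; omega
    have hmm : m' + Finsupp.single 1 1 = m := tsub_add_cancel_of_le hle
    have := congrArg (coeff m') ha
    rw [coeff_pderiv, hmm, coeff_zero] at this
    rcases mul_eq_zero.1 this with h1 | h1
    · exact (mem_support_iff.1 hm) h1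
    · exact Nat.cast_add_one_ne_zero _ h1
  refine ⟨∑ m ∈ a.support, monomial (m + Finsupp.single 0 1) (coeff m a / ((m 0 : ℂ) + 1)), ?_, ?_⟩
  · rw [map_sum]
    conv_rhs => rw [← support_sum_monomial_coeff a]
    refine Finset.sum_congr rfl fun m _ => ?_
    rw [pderiv_monomial, add_tsub_cancel_right]
    congr 1
    have : ((m 0 : ℂ) + 1) ≠ 0 := Nat.cast_add_one_ne_zero _
    simp
    field_simp
  · rw [map_sum]
    refine Finset.sum_eq_zero fun m hm => ?_
    rw [pderiv_monomial]
    have : (m + Finsupp.single 0 1 : Fin 2 →₀ ℕ) 1 = 0 := by simp [hsupp m hm]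
    rw [this]; simp

/-- Poincare lemma. -/
theorem poincare (a b : A2) (h : pderiv 1 a = pderiv 0 b) :
    ∃ f : A2, pderiv 0 f = a ∧ pderiv 1 f = b := by
  obtain ⟨g, hg⟩ := exists_primitive 1 b
  obtain ⟨f, hf0, hf1⟩ := exists_primitive0 (a - pderiv 0 g) (by
    rw [map_sub, h, ← pderiv_comm', hg, sub_self])
  exact ⟨f + g, by rw [map_add, hf0]; ring, by rw [map_add, hf1, hg]; ring⟩

end Pool.Agent.KC2
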