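import Pool.Agent.KC2.Strip2

/-! The bound for an approximate symplectic change of variables. -/

set_option autoImplicit false

namespace Pool.Agent.KC2

open MvPolynomial

lemma wv_strong {k : ℤ} {n : ℕ} {f : A2} (a : ℕ) (c : ℂ)
    (hP : ∀ m, m ≠ Finsupp.single 0 a → coeff m f ≠ 0 → (m 0 : ℤ) - m 1 ≤ k)
    (hPc : coeff (Finsupp.single 0 a) f = c) : WV k n (f - C c * X 0 ^ a) := by
  classical
  intro m _ hm
  rw [coeff_sub, coeff_C_mul, X_pow_eq_monomial, coeff_monomial] at hm
  by_cases h : m = Finsupp.single 0 a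
  · subst h; rw [hPc] at hm; simp at hm
  · rw [if_neg (fun h' => h h'.symm)] at hm
    exact hP m h (by simpa using hm)

/-- the `η`-step -/
lemma step_eta (N n : ℕ) (hn : n + 1 ≤ N) (ξ η : A2) (hξ : V1 ξ) (hη : V1 η)
    (hbr : br (X 0 + ξ) (X 1 + η) - 1 ∈ Ideal.span {(X 0 * X 1 : A2)} ^ N)
    (h0 : WV 0 n ξ) (h1 : WV (-2) n η) : WV (-2) (n + 1) η := by
  have e : pderiv 1 η = (br (X 0 + ξ) (X 1 + η) - 1) - pderiv 0 ξ - pderiv 0 ξ * pderiv 1 η
      + pderiv 0 η * pderiv 1 ξ := by
    simp only [br, map_add, pderiv_X_self, pderiv_X_of_ne (by decide : (1 : Fin 2) ≠ 0),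
      pderiv_X_of_ne (by decide : (0 : Fin 2) ≠ 1)]
    ring
  have key : WV (-1) n (pderiv 1 η) := by
    rw [e]
    have a1 : WV (-1) n (br (X 0 + ξ) (X 1 + η) - 1) := (WV.of_mem hbr (-1)).mono le_rfl (by omega)
    have a2 : WV (-1) n (pderiv 0 ξ) := by simpa using h0.pderiv0
    have a3 : WV (-1) n (pderiv 0 ξ * pderiv 1 η) := by
      cases n with
      | zero => intro m hm; omega
      | succ n =>
        have b1 : WV (-1) n (pderiv 1 η) := by simpa using h1.pderiv1
        exact (WV.mul' hξ.pderiv0 a2 b1).mono (by norm_num) le_rfl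
    have a4 : WV (-1) n (pderiv 0 η * pderiv 1 ξ) := by
      cases n with
      | zero => intro m hm; omega
      | succ n =>
        have b1 : WV 1 n (pderiv 1 ξ) := by simpa using h0.pderiv1
        have b2 : WV (-3) (n + 1) (pderiv 0 η) := by
          have := h1.pderiv0; norm_num at this; exact this
        exact (WV.mul' hη.pderiv0 b2 b1).mono (by norm_num) le_rfl
    exact ((a1.sub a2).sub a3).add a4
  have := WV.of_pderiv1 hη key
  norm_num at this
  exact this

/-- the `ξ`-step -/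
lemma step_xi (n a : ℕ) (ha : 1 ≤ a) (c : ℂ) (hc : c ≠ 0) (P : A2)
    (hP : ∀ m, m ≠ Finsupp.single 0 a → coeff m P ≠ 0 → (m 0 : ℤ) - m 1 ≤ a - 1)
    (hPc : coeff (Finsupp.single 0 a) P = c)
    (ξ T : A2) (hξ : V1 ξ) (hξw : WV 0 n ξ) (hT : WV (a - 1) n T)
    (hT0 : V1 (T - pderiv 0 P)) (hprod : WV (a - 1) (n + 1) (ξ * T)) : WV 0 (n + 1) ξ := by
  classical
  by_contra hcon
  -- the set of bad exponents
  have hbad : ∃ m : Fin 2 →₀ ℕ, m 1 = n ∧ coeff m ξ ≠ 0 ∧ n < m 0 := by
    by_contra hno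
    push Not at hno
    apply hcon
    intro m hm hcm
    rcases Nat.lt_or_ge (m 1) n with h | h
    · exact hξw m h hcm
    · have h1 : m 1 = n := by omega
      have := hno m h1 hcm
      omega
  obtain ⟨m0, hm0, hmax⟩ := (ξ.support.filter fun m => m 1 = n ∧ n < m 0).exists_max_image
    (fun m => m 0) (by
      obtain ⟨m, h1, h2, h3⟩ := hbad
      exact ⟨m, Finset.mem_filter.2 ⟨mem_support_iff.2 h2, h1, h3⟩⟩)
  rw [Finset.mem_filter, mem_support_iff] at hm0
  obtain ⟨hm0c, hm01, hm00⟩ := hm0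
  have hmax' : ∀ m, coeff m ξ ≠ 0 → m 1 = n → m0 0 < m 0 → False := by
    intro m h1 h2 h3
    have : m 0 ≤ m0 0 := hmax m (Finset.mem_filter.2 ⟨mem_support_iff.2 h1, h2, by omega⟩)
    omega
  -- row zero of T
  have hrow : ∀ b : Fin 2 →₀ ℕ, b 1 = 0 → coeff b T = coeff b (pderiv 0 P) := by
    intro b hb
    have := hT0 b hb
    rwa [coeff_sub, sub_eq_zero] at this
  have hco : coeff (m0 + Finsupp.single 0 (a - 1)) (ξ * T) = coeff m0 ξ * (c * a) := by
    rw [coeff_mul]
    rw [Finset.sum_eq_single (m0, Finsupp.single 0 (a - 1))]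
    · simp only
      rw [hrow _ (by simp), coeff_pderiv]
      have e1 : Finsupp.single (0 : Fin 2) (a - 1) + Finsupp.single 0 1 = Finsupp.single 0 a := by
        rw [← Finsupp.single_add]; congr 1; omega
      rw [e1, hPc]
      have : ((Finsupp.single (0 : Fin 2) (a - 1) 0 : ℕ) : ℂ) + 1 = a := by
        rw [Finsupp.single_eq_same, ← Nat.cast_add_one]; congr 1; omega
      rw [this]
    · rintro ⟨p, q⟩ hpq hne
      rw [Finset.HasAntidiagonal.mem_antidiagonal] at hpq
      simp only at hpq ⊢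
      by_contra hcon2
      have hp := left_ne_zero_of_mul hcon2
      have hq := right_ne_zero_of_mul hcon2
      have e0 : p 0 + q 0 = m0 0 + (a - 1) := by
        have := DFunLike.congr_fun hpq 0
        simpa using this
      have e1 : p 1 + q 1 = n := by
        have := DFunLike.congr_fun hpq 1
        simpa [hm01] using this
      have hp1 : p 1 ≠ 0 := fun h => hp (hξ p h)
      rcases Nat.eq_zero_or_pos (q 1) with hq1 | hq1
      · rw [hrow q hq1, coeff_pderiv] at hq
        have hq' := left_ne_zero_of_mul hq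
        have hq0 : q 0 + 1 ≤ a := by
          by_cases hs : q + Finsupp.single 0 1 = Finsupp.single 0 a
          · have := DFunLike.congr_fun hs 0
            simp at this
            omega
          · have := hP _ hs hq'
            simp [hq1] at this
            omega
        rcases Nat.lt_or_ge (m0 0) (p 0) with hlt | hge
        · exact hmax' p hp (by omega) hlt
        · apply hne
          have hp0 : p 0 = m0 0 := by omega
          have hpm : p = m0 := by
            ext i; fin_cases i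
            · simpa using hp0
            · simp; omega
          subst hpm
          have hqq : q = Finsupp.single 0 (a - 1) := add_left_cancel hpq
          rw [hqq]
      · have h1 := hξw p (by omega) hp
        have h2 := hT q (by omega) hq
        omega
    · intro h
      exact (h (Finset.HasAntidiagonal.mem_antidiagonal.2 rfl)).elim
  have hne : coeff (m0 + Finsupp.single 0 (a - 1)) (ξ * T) ≠ 0 := by
    rw [hco]
    exact mul_ne_zero hm0c (mul_ne_zero hc (Nat.cast_ne_zero.2 (by omega)))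
  have := hprod _ (by simp [hm01]) hne
  simp [hm01] at this
  omega

theorem strip_bound (P P' : A2) (a : ℕ) (ha : 1 ≤ a) (c : ℂ) (hc : c ≠ 0)
    (hP : ∀ m, m ≠ Finsupp.single 0 a → coeff m P ≠ 0 → (m 0 : ℤ) - m 1 ≤ a - 1)
    (hPc : coeff (Finsupp.single 0 a) P = c)
    (hP' : ∀ m, m ≠ Finsupp.single 0 a → coeff m P' ≠ 0 → (m 0 : ℤ) - m 1 ≤ a - 1)
    (hPc' : coeff (Finsupp.single 0 a) P' = c)
    (N : ℕ) (v : Fin 2 → A2)
    (hv0 : v 0 - X 0 ∈ Ideal.span {(X 0 * X 1 : A2)})
    (hv1 : v 1 - X 1 ∈ Ideal.span {(X 0 * X 1 : A2)})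
    (hE : aeval v P' - P ∈ Ideal.span {(X 0 * X 1 : A2)} ^ N)
    (hbr : br (v 0) (v 1) - 1 ∈ Ideal.span {(X 0 * X 1 : A2)} ^ N) :
    WV 0 N (v 0 - X 0) ∧ WV (-2) N (v 1 - X 1) := by
  set ξ := v 0 - X 0 with hξ
  set η := v 1 - X 1 with hη
  have hξV := V1.of_mem hv0
  have hηV := V1.of_mem hv1
  have hvv : v = ![X 0 + ξ, X 1 + η] := by
    funext i; fin_cases i
    · simp [hξ]
    · simp [hη]
  have hbr' : br (X 0 + ξ) (X 1 + η) - 1 ∈ Ideal.span {(X 0 * X 1 : A2)} ^ N := by
    have e0 : X 0 + ξ = v 0 := by rw [hξ]; ring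
    have e1 : X 1 + η = v 1 := by rw [hη]; ring
    rw [e0, e1]; exact hbr
  have hP'w : ∀ m, coeff m P' ≠ 0 → (m 0 : ℤ) - m 1 ≤ a := by
    intro m hm
    by_cases h : m = Finsupp.single 0 a
    · subst h; simp
    · have := hP' m h hm; omega
  suffices H : ∀ n, n ≤ N → WV 0 n ξ ∧ WV (-2) n η from H N le_rfl
  intro n
  induction n with
  | zero => intro _; exact ⟨fun m hm => by omega, fun m hm => by omega⟩
  | succ n ih =>
    intro hn
    obtain ⟨h0, h1⟩ := ih (by omega)
    have h1' := step_eta N n hn ξ η hξV hηV hbr' h0 h1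
    refine ⟨?_, h1'⟩
    obtain ⟨T, t1, t2, t3⟩ := dd_poly n ξ η hξV hηV (h0.mono (by norm_num) le_rfl)
      (h1.mono (by norm_num) le_rfl) a P' hP'w
    refine step_xi n a ha c hc P' hP' hPc' ξ T hξV h0 t2 t3 ?_
    rw [← t1, ← hvv]
    have e : aeval v P' - aeval ![X 0, X 1 + η] P' = (aeval v P' - P) + (P - C c * X 0 ^ a)
        - aeval ![X 0, X 1 + η] (P' - C c * X 0 ^ a) := by
      simp only [map_sub, map_mul, map_pow, aeval_X, Matrix.cons_val_zero, algHom_C,
        algebraMap_eq]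
      ring
    rw [e]
    refine ((WV.of_mem hE _).mono le_rfl hn).add (wv_strong a c hP hPc) |>.sub ?_
    refine WV.aeval _ ?_ ?_ _ ?_
    · simpa using WV.X0 (n + 1)
    · simp only [Matrix.cons_val_one, Matrix.cons_val_zero]
      exact (WV.X1 _).add (h1'.mono (by norm_num) le_rfl)
    · intro m hm
      have := wv_strong (n := m 1 + 1) a c hP' hPc'
      exact this m (by omega) hm

end Pool.Agent.KC2
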