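import Pool.Agent.KC2.Res3
import Pool.Agent.KC2.Strip3

/-! The leading form is pure, and the strip condition passes to the partner. -/

set_option autoImplicit false

noncomputable section

namespace Pool.Agent.KC2

open MvPolynomial

lemma m_eq_single {m : Fin 2 →₀ ℕ} {a : ℕ} (h0 : m 0 = a) (h1 : m 1 = 0) :
    m = Finsupp.single 0 a := by
  ext i; fin_cases i
  · simpa using h0
  · simpa using h1

theorem lead_pure (P Q : A2) (κ : ℂ) (hκ : κ ≠ 0) (hPQ : br P Q = C κ) (a : ℕ)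
    (hc : coeff (Finsupp.single 0 a) P ≠ 0)
    (hP : ∀ m, coeff m P ≠ 0 → m 0 ≤ m 1 + a) :
    ∀ m, m ≠ Finsupp.single 0 a → coeff m P ≠ 0 → (m 0 : ℤ) - m 1 ≤ a - 1 := by
  have hP' : ∀ m, coeff m P ≠ 0 → (m 0 : ℤ) - m 1 ≤ a := fun m hm => by have := hP m hm; omega
  have h0 : (rho a P).coeff 0 ≠ 0 := by
    have := rho_coeff a P (Finsupp.single 0 a) (by simp)
    simp only [Finsupp.single_apply] at this
    simp at this
    rw [this]; exact hc
  have hρ : rho a P ≠ 0 := by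
    intro h; rw [h] at h0; simp at h0
  have hdeg : (rho a P).degree ≤ 0 := by
    by_contra hd
    push Not at hd
    obtain ⟨s, hs⟩ := IsAlgClosed.exists_root (rho a P) (ne_of_gt hd)
    have hs' : (rho a P).eval s = 0 := hs
    have := residue P Q κ hκ hPQ a hP' hρ s hs'
    rw [this] at hs'
    rw [Polynomial.coeff_zero_eq_eval_zero] at h0
    exact h0 hs'
  intro m hm hcm
  by_contra hcon
  have h1 := hP' m hcm
  have h2 : (m 0 : ℤ) - m 1 = a := by omega
  have h3 : m 1 ≠ 0 := by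
    intro h
    apply hm
    exact m_eq_single (by omega) h
  have h4 := rho_coeff a P m h2
  rw [Polynomial.eq_C_of_degree_le_zero hdeg, Polynomial.coeff_C, if_neg h3] at h4
  exact hcm h4.symm

/-- the strip condition passes to the partner -/
theorem partner (P Q : A2) (κ : ℂ) (hPQ : br P Q = C κ) (a b : ℕ) (ha : 1 ≤ a) (hb : 1 ≤ b)
    (hc : coeff (Finsupp.single 0 a) P ≠ 0)
    (hP : ∀ m, m ≠ Finsupp.single 0 a → coeff m P ≠ 0 → (m 0 : ℤ) - m 1 ≤ a - 1)
    (hQ : ∀ j : ℕ, b < j → coeff (Finsupp.single 0 j) Q = 0) :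
    ∀ m, coeff m Q ≠ 0 → m 0 ≤ m 1 + b := by
  classical
  by_contra hcon
  push Not at hcon
  obtain ⟨m1, hm1, hlt1⟩ := hcon
  obtain ⟨m, hm, hmax⟩ := (Q.support.filter fun m => m 1 + b < m 0).exists_max_image
    (fun m => (m 0 : ℤ) - m 1) ⟨m1, Finset.mem_filter.2 ⟨mem_support_iff.2 hm1, hlt1⟩⟩
  rw [Finset.mem_filter, mem_support_iff] at hm
  obtain ⟨hmc, hmb⟩ := hm
  have hQW : ∀ n, WV ((m 0 : ℤ) - m 1) n Q := by
    intro n k _ hk
    by_cases h : k 1 + b < k 0
    · exact hmax k (Finset.mem_filter.2 ⟨mem_support_iff.2 hk, h⟩)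
    · omega
  have hm1' : m 1 ≠ 0 := by
    intro h
    have h1 := hQ (m 0) (by omega)
    rw [← m_eq_single (m := m) rfl h] at h1
    exact hmc h1
  set c := coeff (Finsupp.single 0 a) P with hcdef
  set R := P - C c * X 0 ^ a with hR
  have hRW : ∀ n, WV (a - 1) n R := fun n => wv_strong a c hP rfl
  have hPe : P = C c * X 0 ^ a + R := by rw [hR]; ring
  set m' : Fin 2 →₀ ℕ := m - Finsupp.single 1 1 with hm'
  have hle : Finsupp.single 1 1 ≤ m := by
    rw [Finsupp.single_le_iff]; omega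
  have hmm : m' + Finsupp.single 1 1 = m := tsub_add_cancel_of_le hle
  have hm'0 : m' 0 = m 0 := by rw [← hmm]; simp
  have hm'1 : m' 1 + 1 = m 1 := by rw [← hmm]; simp
  set n : Fin 2 →₀ ℕ := Finsupp.single 0 (a - 1) + m' with hn
  have hn0 : n 0 = a - 1 + m 0 := by rw [hn]; simp [hm'0]
  have hn1 : n 1 + 1 = m 1 := by rw [hn]; simp [hm'1]
  have hbr : br P Q = C (c * a) * X 0 ^ (a - 1) * pderiv 1 Q + (pderiv 0 R * pderiv 1 Q
      - pderiv 1 R * pderiv 0 Q) := by
    rw [br, hPe]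
    simp only [map_add, pderiv_C_mul, Derivation.leibniz_pow, pderiv_X_self,
      pderiv_X_of_ne (by decide : (0 : Fin 2) ≠ 1), smul_eq_mul, nsmul_eq_mul, C_mul]
    rw [map_natCast]
    ring
  have h1 : coeff n (pderiv 0 R * pderiv 1 Q - pderiv 1 R * pderiv 0 Q) = 0 := by
    by_contra hne
    have w1 := ((hRW (n 1 + 1)).pderiv0).mul ((hQW (n 1 + 1 + 1)).pderiv1)
    have w2 := ((hRW (n 1 + 1 + 1)).pderiv1).mul ((hQW (n 1 + 1)).pderiv0)
    have w3 : WV ((a : ℤ) - 1 + (m 0 - m 1)) (n 1 + 1)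
        (pderiv 0 R * pderiv 1 Q - pderiv 1 R * pderiv 0 Q) :=
      (w1.mono (by linarith) le_rfl).sub (w2.mono (by linarith) le_rfl)
    have := w3 n (by omega) hne
    rw [hn0] at this
    push_cast [Nat.cast_sub ha] at this
    omega
  have h2 : coeff n (C (c * a) * X 0 ^ (a - 1) * pderiv 1 Q) = c * a * (coeff m Q * (m 1)) := by
    rw [mul_assoc, coeff_C_mul, X_pow_eq_monomial, hn, add_comm (Finsupp.single 0 (a-1)) m',
      mul_comm (monomial _ _) (pderiv 1 Q), coeff_mul_monomial, coeff_pderiv, hmm, mul_one]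
    have : ((m' 1 : ℕ) : ℂ) + 1 = m 1 := by exact_mod_cast hm'1
    rw [this]
  have h3 := congrArg (coeff n) hPQ
  rw [hbr, coeff_add, h1, h2, add_zero, coeff_C, if_neg] at h3
  · have h4 : (c * a * (coeff m Q * (m 1)) : ℂ) ≠ 0 :=
      mul_ne_zero (mul_ne_zero hc (Nat.cast_ne_zero.2 (by omega)))
        (mul_ne_zero hmc (Nat.cast_ne_zero.2 hm1'))
    exact h4 h3
  · intro h
    have := DFunLike.congr_fun h 0
    simp only [Finsupp.coe_zero, Pi.zero_apply] at this
    omega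

end Pool.Agent.KC2
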