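import Pool.Agent.KC2.Poincare
import Pool.Agent.KC2.Hahn

/-! The residue lemma: the leading form of a component of a Jacobian pair with respect to the
weight `(1,-1)` is a monomial. -/

set_option autoImplicit false

noncomputable section

namespace Pool.Agent.KC2

open MvPolynomial

/-- exponents of `τ` and `z`, lexicographically ordered -/
abbrev G2 := ℤ ×ₗ ℤ

abbrev BB := HahnSeries G2 ℂ

def wτ : G2 →+ ℂ where
  toFun g := ((ofLex g).1 : ℂ)
  map_zero' := by simp
  map_add' := by intro a b; simp

def wz : G2 →+ ℂ where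
  toFun g := ((ofLex g).2 : ℂ)
  map_zero' := by simp
  map_add' := by intro a b; simp

def sX : BB := HahnSeries.single (toLex (-1, 0)) 1
def sY (s : ℂ) : BB := HahnSeries.single (toLex (1, 0)) s + HahnSeries.single (toLex (1, 1)) 1
def sW : BB := HahnSeries.single (toLex (1, 1)) 1
def sZ : BB := HahnSeries.single (toLex (0, 1)) 1

lemma dτ_X : eul wτ sX = - sX := by
  rw [sX, eul_single]
  simp [wτ]

lemma dz_X : eul wz sX = 0 := by
  rw [sX, eul_single]
  simp [wz]

lemma dτ_Y (s : ℂ) : eul wτ (sY s) = sY s := by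
  rw [sY, map_add, eul_single, eul_single]
  simp [wτ]

lemma dz_Y (s : ℂ) : eul wz (sY s) = sW := by
  rw [sY, map_add, eul_single, eul_single]
  simp [wz, sW]

lemma X_mul_W : sX * sW = sZ := by
  rw [sX, sW, sZ, HahnSeries.single_mul_single]
  congr 1
  simp

lemma X_mul_Y (s : ℂ) : sX * sY s = HahnSeries.single 0 s + sZ := by
  rw [sX, sY, sZ, mul_add, HahnSeries.single_mul_single, HahnSeries.single_mul_single]
  congr 2
  · simp
  · simp

/-- evaluation at the branch -/
def ev (s : ℂ) : A2 →ₐ[ℂ] BB := aeval ![sX, sY s]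

lemma chain (D : Derivation ℂ BB BB) (s : ℂ) (P : A2) :
    D (ev s P) = ev s (pderiv 0 P) * D sX + ev s (pderiv 1 P) * D (sY s) := by
  induction P using MvPolynomial.induction_on with
  | C a => simp [ev]
  | add p q hp hq => simp only [map_add, hp, hq]; ring
  | mul_X p j hp =>
    rw [map_mul, Derivation.leibniz, hp]
    simp only [smul_eq_mul, Derivation.leibniz, map_add, map_mul, pderiv_X]
    fin_cases j
    · simp [Pi.single_apply, ev]; ring
    · simp [Pi.single_apply, ev]; ring

end Pool.Agent.KC2
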