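import Pool.Agent.KC2.Res

/-! Coefficients of the evaluation at a branch. -/

set_option autoImplicit false

noncomputable section

namespace Pool.Agent.KC2

open MvPolynomial

lemma nsmul_toLex (n : ℕ) (a b : ℤ) : n • (toLex (a, b) : G2) = toLex ((n : ℤ) * a, (n : ℤ) * b) := by
  apply ofLex.injective
  ext <;> simp

lemma add_toLex (a b c d : ℤ) : (toLex (a, b) + toLex (c, d) : G2) = toLex (a + c, b + d) := rfl

/-- polynomials in `z` -/
def io : Polynomial ℂ →ₐ[ℂ] BB := Polynomial.aeval sZ

lemma sZ_pow (n : ℕ) : sZ ^ n = HahnSeries.single (toLex (0, (n : ℤ))) 1 := by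
  rw [sZ, HahnSeries.single_pow, one_pow, nsmul_toLex, mul_zero, mul_one]

lemma io_coeff (p : Polynomial ℂ) (u q : ℤ) :
    (io p).coeff (toLex (u, q)) = if u = 0 ∧ 0 ≤ q then p.coeff q.toNat else 0 := by
  induction p using Polynomial.induction_on' with
  | add p q' hp hq =>
    rw [map_add, HahnSeries.coeff_add, hp, hq, Polynomial.coeff_add]
    split_ifs <;> simp
  | monomial n c =>
    have : io (Polynomial.monomial n c) = HahnSeries.single (toLex (0, (n : ℤ))) c := by
      rw [io, Polynomial.aeval_monomial, sZ_pow, HahnSeries.algebraMap_apply]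
      simp [HahnSeries.single_mul_single]
    rw [this, HahnSeries.coeff_single, Polynomial.coeff_monomial]
    by_cases h : u = 0 ∧ 0 ≤ q
    · rw [if_pos h]
      by_cases hn : n = q.toNat
      · rw [if_pos hn, if_pos]
        rw [h.1, hn]
        have := Int.toNat_of_nonneg h.2
        rw [this]
      · rw [if_neg hn, if_neg]
        intro h'
        have h2 := congrArg (fun g => (ofLex g).2) h'
        simp only [ofLex_toLex] at h2
        apply hn
        omega
    · rw [if_neg h, if_neg]
      intro h'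
      have h1 := congrArg (fun g => (ofLex g).1) h'
      have h2 := congrArg (fun g => (ofLex g).2) h'
      simp only [ofLex_toLex] at h1 h2
      apply h
      constructor
      · exact h1
      · omega

lemma sX_pow (n : ℕ) : sX ^ n = HahnSeries.single (toLex (-(n : ℤ), 0)) 1 := by
  rw [sX, HahnSeries.single_pow, one_pow, nsmul_toLex, mul_zero, mul_neg, mul_one]

lemma sY_eq (s : ℂ) : sY s = HahnSeries.single (toLex (1, 0)) 1 * io (Polynomial.C s + Polynomial.X) := by
  rw [io, map_add, Polynomial.aeval_C, Polynomial.aeval_X, sY, sZ, mul_add,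
    HahnSeries.single_mul_single, HahnSeries.algebraMap_apply]
  congr 1
  · simp [HahnSeries.single_mul_single]
  · rw [add_toLex, mul_one]; rfl

lemma sY_pow (s : ℂ) (n : ℕ) : sY s ^ n =
    HahnSeries.single (toLex ((n : ℤ), 0)) 1 * io ((Polynomial.C s + Polynomial.X) ^ n) := by
  rw [sY_eq, mul_pow, HahnSeries.single_pow, one_pow, map_pow, nsmul_toLex, mul_zero, mul_one]

lemma ev_coeff (s : ℂ) (P : A2) (p q : ℤ) :
    (ev s P).coeff (toLex (p, q)) = ∑ m ∈ P.support,
      if (m 1 : ℤ) - m 0 = p ∧ 0 ≤ q then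
        coeff m P * ((Polynomial.C s + Polynomial.X) ^ m 1).coeff q.toNat else 0 := by
  have h : ev s P = ∑ m ∈ P.support, HahnSeries.single (toLex ((m 1 : ℤ) - m 0, 0)) (coeff m P) *
      io ((Polynomial.C s + Polynomial.X) ^ m 1) := by
    rw [ev, aeval_def, eval₂_eq']
    refine Finset.sum_congr rfl fun m _ => ?_
    rw [Fin.prod_univ_two]
    simp only [Matrix.cons_val_zero, Matrix.cons_val_one]
    rw [sX_pow, sY_pow, HahnSeries.algebraMap_apply, ← mul_assoc, ← mul_assoc,
      HahnSeries.C_apply, HahnSeries.single_mul_single, HahnSeries.single_mul_single,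
      zero_add, add_toLex, add_zero, mul_one, mul_one]
    have e : (-(m 0 : ℤ) + (m 1 : ℤ)) = (m 1 : ℤ) - m 0 := by ring
    rw [e]; rfl
  rw [h, HahnSeries.coeff_sum]
  refine Finset.sum_congr rfl fun m _ => ?_
  rw [HahnSeries.coeff_single_mul]
  have : (toLex (p, q) - toLex ((m 1 : ℤ) - m 0, 0) : G2) = toLex (p - ((m 1 : ℤ) - m 0), q) := by
    apply ofLex.injective
    simp
  rw [this, io_coeff]
  by_cases h1 : (m 1 : ℤ) - m 0 = p ∧ 0 ≤ q
  · rw [if_pos h1, if_pos ⟨by omega, h1.2⟩]
  · rw [if_neg h1, if_neg (by intro h2; apply h1; exact ⟨by omega, h2.2⟩), mul_zero]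

/-- leading form as a polynomial in `s = xy` -/
def rho (a : ℤ) (P : A2) : Polynomial ℂ :=
  ∑ m ∈ P.support, if (m 0 : ℤ) - m 1 = a then Polynomial.C (coeff m P) * Polynomial.X ^ m 1 else 0

lemma rho_coeff (a : ℤ) (P : A2) (m : Fin 2 →₀ ℕ) (hm : (m 0 : ℤ) - m 1 = a) :
    (rho a P).coeff (m 1) = coeff m P := by
  classical
  rw [rho, Polynomial.finset_sum_coeff]
  by_cases hs : m ∈ P.support
  · rw [Finset.sum_eq_single_of_mem m hs]
    · rw [if_pos hm]; simp
    · intro b _ hb
      split_ifs with h
      · rw [Polynomial.coeff_C_mul, Polynomial.coeff_X_pow, if_neg, mul_zero]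
        intro h'
        apply hb
        ext i
        fin_cases i
        · simp; omega
        · simp; omega
      · simp
  · rw [notMem_support_iff.1 hs]
    refine Finset.sum_eq_zero fun b hbs => ?_
    split_ifs with h
    · rw [Polynomial.coeff_C_mul, Polynomial.coeff_X_pow, if_neg, mul_zero]
      intro h'
      apply hs
      have : m = b := by
        ext i
        fin_cases i
        · simp; omega
        · simp; omega
      rw [this]; exact hbs
    · simp

lemma ev_coeff_lead (s : ℂ) (P : A2) (a : ℤ) (n : ℕ) :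
    (ev s P).coeff (toLex (-a, (n : ℤ))) = ((rho a P).comp (Polynomial.C s + Polynomial.X)).coeff n := by
  rw [ev_coeff, rho, ← Polynomial.coe_compRingHom_apply, map_sum, Polynomial.finset_sum_coeff]
  refine Finset.sum_congr rfl fun m _ => ?_
  by_cases h : (m 0 : ℤ) - m 1 = a
  · rw [if_pos h, if_pos ⟨by omega, by omega⟩]
    simp
  · rw [if_neg h, if_neg (by rintro ⟨h1, _⟩; omega)]
    simp

end Pool.Agent.KC2
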