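import Pool.Agent.KC2.Res2

/-! The residue lemma. -/

set_option autoImplicit false

noncomputable section

namespace Pool.Agent.KC2

open MvPolynomial

lemma ev_order (s : ℂ) (P : A2) (a : ℤ) (hP : ∀ m, coeff m P ≠ 0 → (m 0 : ℤ) - m 1 ≤ a)
    (hρ : rho a P ≠ 0) (hs : (rho a P).eval s = 0) :
    ev s P ≠ 0 ∧ (ofLex (ev s P).order).2 ≠ 0 := by
  have hcoef : ∀ p q : ℤ, (ev s P).coeff (toLex (p, q)) ≠ 0 → -a ≤ p ∧ 0 ≤ q := by
    intro p q h
    rw [ev_coeff] at h
    obtain ⟨m, hm, hne⟩ := Finset.exists_ne_zero_of_sum_ne_zero h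
    have h1 : (m 1 : ℤ) - m 0 = p ∧ 0 ≤ q := by
      by_contra h2; rw [if_neg h2] at hne; exact hne rfl
    have := hP m (mem_support_iff.1 hm)
    omega
  have hcomp : (rho a P).comp (Polynomial.C s + Polynomial.X) ≠ 0 := by
    intro h
    apply hρ
    have := congrArg (fun p => Polynomial.comp p (Polynomial.X - Polynomial.C s)) h
    simp only [Polynomial.comp_assoc, Polynomial.add_comp, Polynomial.C_comp, Polynomial.X_comp,
      Polynomial.zero_comp, add_sub_cancel, Polynomial.comp_X] at this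
    exact this
  obtain ⟨n, hn⟩ : ∃ n, ((rho a P).comp (Polynomial.C s + Polynomial.X)).coeff n ≠ 0 := by
    by_contra hno
    push Not at hno
    exact hcomp (Polynomial.ext (by simpa using hno))
  rw [← ev_coeff_lead] at hn
  have hne : ev s P ≠ 0 := by
    intro h; rw [h] at hn; simp at hn
  refine ⟨hne, ?_⟩
  set g := (ev s P).order with hg
  have hg' : g = toLex ((ofLex g).1, (ofLex g).2) := rfl
  have hcg : (ev s P).coeff g ≠ 0 := by
    rw [hg, ← HahnSeries.leadingCoeff_eq]
    rwa [Ne, HahnSeries.leadingCoeff_eq_zero]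
  rw [hg'] at hcg
  have h1 := hcoef _ _ hcg
  have h2 : g ≤ toLex (-a, (n : ℤ)) := HahnSeries.order_le_of_coeff_ne_zero hn
  have h3 : (ofLex g).1 ≤ -a := by
    rw [Prod.Lex.le_iff] at h2
    rcases h2 with h2 | h2
    · exact le_of_lt h2
    · exact le_of_eq h2.1
  have h4 : (ofLex g).1 = -a := le_antisymm h3 h1.1
  intro h5
  apply hcg
  rw [h4, h5]
  have := ev_coeff_lead s P a 0
  rw [Nat.cast_zero] at this
  rw [this, Polynomial.coeff_zero_eq_eval_zero, Polynomial.eval_comp]
  simpa using hs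

theorem residue (P Q : A2) (κ : ℂ) (hκ : κ ≠ 0) (hPQ : br P Q = C κ) (a : ℤ)
    (hP : ∀ m, coeff m P ≠ 0 → (m 0 : ℤ) - m 1 ≤ a)
    (hρ : rho a P ≠ 0) (s : ℂ) (hs : (rho a P).eval s = 0) : s = 0 := by
  obtain ⟨hne, hord⟩ := ev_order s P a hP hρ hs
  obtain ⟨f, hf0, hf1⟩ := poincare (P * pderiv 0 Q) (P * pderiv 1 Q - C κ * X 0) (by
    have : pderiv 1 (P * pderiv 0 Q) - pderiv 0 (P * pderiv 1 Q - C κ * X 0)
        = - (br P Q) + C κ := by
      simp only [br, map_sub, Derivation.leibniz, smul_eq_mul, pderiv_comm', pderiv_X_self,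
        pderiv_C, mul_zero, add_zero, mul_one]
      ring
    rw [hPQ] at this
    rw [← sub_eq_zero, this]; ring)
  set p := ev s P with hp
  set px := ev s (pderiv 0 P) with hpx
  set py := ev s (pderiv 1 P) with hpy
  set qx := ev s (pderiv 0 Q) with hqx
  set qy := ev s (pderiv 1 Q) with hqy
  set F := ev s f with hF
  set k : BB := algebraMap ℂ BB κ with hk
  have hXX : ev s (X 0) = sX := by simp [ev]
  have hCk : ev s (C κ) = k := by
    rw [hk]; simp [ev]
  have hfx : ev s (pderiv 0 f) = p * qx := by rw [hf0, map_mul]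
  have hfy : ev s (pderiv 1 f) = p * qy - k * sX := by
    rw [hf1, map_sub, map_mul, map_mul, hCk, hXX]
  have hbr : px * qy - py * qx = k := by
    have := congrArg (ev s) hPQ
    rw [hCk, br, map_sub, map_mul, map_mul] at this
    exact this
  have e1 : eul wτ p = px * (- sX) + py * sY s := by
    rw [hp, chain, dτ_X, dτ_Y]
  have e2 : eul wz p = py * sW := by
    rw [hp, chain, dz_X, dz_Y, mul_zero, zero_add]
  have e3 : eul wτ F = (p * qx) * (- sX) + (p * qy - k * sX) * sY s := by
    rw [hF, chain, dτ_X, dτ_Y, hfx, hfy]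
  have e4 : eul wz F = (p * qy - k * sX) * sW := by
    rw [hF, chain, dz_X, dz_Y, mul_zero, zero_add, hfy]
  set S : BB := HahnSeries.single 0 s with hS
  have hXW : sX * sW = sZ := X_mul_W
  have hXY : sX * sY s = S + sZ := X_mul_Y s
  set α := eul wτ p / p with hα
  set β := eul wz p / p with hβ
  have hαp : α * p = eul wτ p := by rw [hα]; field_simp
  have hβp : β * p = eul wz p := by rw [hβ]; field_simp
  have key : eul wτ (β * F) - eul wz (α * F) = k * (sZ + sZ * α - (S + sZ) * β) := by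
    have hc : eul wτ β = eul wz α := by rw [hα, hβ]; exact eul_logder _ _ _ hne
    rw [Derivation.leibniz, Derivation.leibniz, hc]
    simp only [smul_eq_mul]
    apply mul_right_cancel₀ hne
    have : (β * eul wτ F + F * eul wz α - (α * eul wz F + F * eul wz α)) * p
        = eul wz p * eul wτ F - eul wτ p * eul wz F := by
      rw [← hαp, ← hβp]; ring
    rw [this]
    have : k * (sZ + sZ * α - (S + sZ) * β) * p
        = k * (sZ * p + sZ * eul wτ p - (S + sZ) * eul wz p) := by
      rw [← hαp, ← hβp]; ring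
    rw [this, e1, e2, e3, e4, ← hXY, ← hXW]
    linear_combination (p * sX * sW) * hbr
  have hc := congrArg (fun x : BB => x.coeff 0) key
  simp only [HahnSeries.coeff_sub, eul_coeff, map_zero, zero_mul, sub_zero] at hc
  obtain ⟨hα1, -⟩ := logder_coeff wτ p hne
  obtain ⟨hβ1, hβ0⟩ := logder_coeff wz p hne
  have hneg : (0 - toLex ((0 : ℤ), (1 : ℤ)) : G2) < 0 := by
    rw [sub_lt_zero, Prod.Lex.lt_iff]
    right
    exact ⟨rfl, by decide⟩
  have hkC : k = HahnSeries.single 0 κ := by
    rw [hk, HahnSeries.algebraMap_apply]; rfl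
  rw [hkC, HahnSeries.coeff_single_zero_mul] at hc
  have hZ : (sZ : BB).coeff 0 = 0 := by
    rw [sZ, HahnSeries.coeff_single_of_ne]
    intro h
    have := congrArg (fun g => (ofLex g).2) h
    simp at this
  have hZα : (sZ * α).coeff 0 = 0 := by
    rw [sZ, HahnSeries.coeff_single_mul, hα1 _ hneg, mul_zero]
  have hSβ : ((S + sZ) * β).coeff 0 = s * wz p.order := by
    rw [add_mul, HahnSeries.coeff_add, hS, HahnSeries.coeff_single_zero_mul, hβ0, sZ,
      HahnSeries.coeff_single_mul, hβ1 _ hneg, mul_zero, add_zero]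
  rw [HahnSeries.coeff_sub, HahnSeries.coeff_add, hZ, hZα, hSβ] at hc
  have h2 : κ * (s * wz p.order) = 0 := by linear_combination hc
  rcases mul_eq_zero.1 h2 with h | h
  · exact absurd h hκ
  · rcases mul_eq_zero.1 h with h | h
    · exact h
    · exfalso
      apply hord
      have : ((ofLex p.order).2 : ℂ) = 0 := h
      exact_mod_cast this

end Pool.Agent.KC2
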