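import Pool.Agent.KC2.Taylor

/-! Degree bounds, row by row, for an approximate symplectic change of variables. -/

set_option autoImplicit false

namespace Pool.Agent.KC2

open MvPolynomial

/-- all monomials `x^i y^j` with `j < n` occurring in `f` satisfy `i - j ≤ k` -/
def WV (k : ℤ) (n : ℕ) (f : A2) : Prop :=
  ∀ m : Fin 2 →₀ ℕ, m 1 < n → coeff m f ≠ 0 → (m 0 : ℤ) - m 1 ≤ k

/-- divisible by `y` -/
def V1 (f : A2) : Prop := ∀ m : Fin 2 →₀ ℕ, m 1 = 0 → coeff m f = 0

lemma WV.mono {k l : ℤ} {n p : ℕ} {f : A2} (h : WV k n f) (hkl : k ≤ l) (hpn : p ≤ n) : WV l p f :=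
  fun m hm hc => (h m (by omega) hc).trans hkl

lemma WV.add {k : ℤ} {n : ℕ} {f g : A2} (hf : WV k n f) (hg : WV k n g) : WV k n (f + g) := by
  intro m hm hc
  rw [coeff_add] at hc
  by_cases h : coeff m f = 0
  · exact hg m hm (by rintro h'; exact hc (by rw [h, h']; ring))
  · exact hf m hm h

lemma WV.neg {k : ℤ} {n : ℕ} {f : A2} (hf : WV k n f) : WV k n (-f) := by
  intro m hm hc
  rw [coeff_neg] at hc
  exact hf m hm (by simpa using hc)

lemma WV.sub {k : ℤ} {n : ℕ} {f g : A2} (hf : WV k n f) (hg : WV k n g) : WV k n (f - g) := by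
  rw [sub_eq_add_neg]; exact hf.add hg.neg

lemma WV.zero (k : ℤ) (n : ℕ) : WV k n 0 := by
  intro m _ hc; simp at hc

lemma WV.sum {ι : Type*} (s : Finset ι) (k : ℤ) (n : ℕ) (f : ι → A2) (h : ∀ i ∈ s, WV k n (f i)) :
    WV k n (∑ i ∈ s, f i) := by
  classical
  induction s using Finset.induction_on with
  | empty => simpa using WV.zero k n
  | insert i s hi ih =>
    rw [Finset.sum_insert hi]
    exact (h i (Finset.mem_insert_self _ _)).add (ih fun j hj => h j (Finset.mem_insert_of_mem hj))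

lemma exists_of_coeff_mul {f g : A2} {m : Fin 2 →₀ ℕ} (h : coeff m (f * g) ≠ 0) :
    ∃ a b : Fin 2 →₀ ℕ, a + b = m ∧ coeff a f ≠ 0 ∧ coeff b g ≠ 0 := by
  classical
  rw [coeff_mul] at h
  obtain ⟨x, hx, hne⟩ := Finset.exists_ne_zero_of_sum_ne_zero h
  exact ⟨x.1, x.2, Finset.HasAntidiagonal.mem_antidiagonal.1 hx, left_ne_zero_of_mul hne, right_ne_zero_of_mul hne⟩

lemma WV.mul {k l : ℤ} {n : ℕ} {f g : A2} (hf : WV k n f) (hg : WV l n g) : WV (k + l) n (f * g) := by
  intro m hm hc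
  obtain ⟨a, b, rfl, ha, hb⟩ := exists_of_coeff_mul hc
  simp only [Finsupp.add_apply] at hm ⊢
  have h1 := hf a (by omega) ha
  have h2 := hg b (by omega) hb
  push_cast; linarith

/-- if the first factor is divisible by `y`, one row less of the second factor is needed -/
lemma WV.mul' {k l : ℤ} {n : ℕ} {f g : A2} (hf1 : V1 f) (hf : WV k (n + 1) f) (hg : WV l n g) :
    WV (k + l) (n + 1) (f * g) := by
  intro m hm hc
  obtain ⟨a, b, rfl, ha, hb⟩ := exists_of_coeff_mul hc
  simp only [Finsupp.add_apply] at hm ⊢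
  have ha1 : a 1 ≠ 0 := fun h => ha (hf1 a h)
  have h1 := hf a (by omega) ha
  have h2 := hg b (by omega) hb
  push_cast; linarith

lemma WV.one (n : ℕ) : WV 0 n 1 := by
  classical
  intro m _ hc
  rw [coeff_one] at hc
  have : m = 0 := by by_contra h; exact hc (if_neg (fun h' => h h'.symm))
  subst this; simp

lemma WV.C (c : ℂ) (n : ℕ) : WV 0 n (C c) := by
  classical
  intro m _ hc
  rw [coeff_C] at hc
  have : m = 0 := by by_contra h; exact hc (if_neg (fun h' => h h'.symm))
  subst this; simp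

lemma WV.pow {k : ℤ} {n : ℕ} {f : A2} (hf : WV k n f) (j : ℕ) : WV (j * k) n (f ^ j) := by
  induction j with
  | zero => simpa using WV.one n
  | succ j ih =>
    rw [pow_succ]
    have := ih.mul hf
    convert this using 1
    push_cast; ring

lemma WV.X0 (n : ℕ) : WV 1 n (X 0) := by
  classical
  intro m _ hc
  rw [coeff_X'] at hc
  have : Finsupp.single 0 1 = m := by by_contra h; exact hc (if_neg h)
  subst this; simp

lemma WV.X1 (n : ℕ) : WV (-1) n (X 1) := by
  classical
  intro m _ hc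
  rw [coeff_X'] at hc
  have : Finsupp.single 1 1 = m := by by_contra h; exact hc (if_neg h)
  subst this; simp

lemma WV.pderiv0 {k : ℤ} {n : ℕ} {f : A2} (hf : WV k n f) : WV (k - 1) n (pderiv 0 f) := by
  intro m hm hc
  rw [coeff_pderiv] at hc
  have := hf (m + Finsupp.single 0 1) (by simpa using hm) (left_ne_zero_of_mul hc)
  simp only [Finsupp.add_apply, Finsupp.single_apply] at this
  simp at this
  linarith

lemma WV.pderiv1 {k : ℤ} {n : ℕ} {f : A2} (hf : WV k (n + 1) f) : WV (k + 1) n (pderiv 1 f) := by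
  intro m hm hc
  rw [coeff_pderiv] at hc
  have := hf (m + Finsupp.single 1 1) (by simpa using hm) (left_ne_zero_of_mul hc)
  simp only [Finsupp.add_apply, Finsupp.single_apply] at this
  simp at this
  linarith

/-- integrate a bound in the `y` direction -/
lemma WV.of_pderiv1 {k : ℤ} {n : ℕ} {f : A2} (hV : V1 f) (hf : WV k n (pderiv 1 f)) :
    WV (k - 1) (n + 1) f := by
  intro m hm hc
  have hm1 : m 1 ≠ 0 := fun h => hc (hV m h)
  set m' : Fin 2 →₀ ℕ := m - Finsupp.single 1 1 with hm'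
  have hle : Finsupp.single 1 1 ≤ m := by
    rw [Finsupp.single_le_iff]; omega
  have hmm : m' + Finsupp.single 1 1 = m := tsub_add_cancel_of_le hle
  have h0 : m' 0 = m 0 := by
    rw [← hmm]; simp
  have h1 : m' 1 + 1 = m 1 := by
    rw [← hmm]; simp
  have := hf m' (by omega) (by
    rw [coeff_pderiv, hmm]
    refine mul_ne_zero hc ?_
    exact Nat.cast_add_one_ne_zero _)
  rw [h0] at this
  have h1' : (m' 1 : ℤ) + 1 = m 1 := by exact_mod_cast h1
  linarith

lemma V1.pderiv0 {f : A2} (hf : V1 f) : V1 (pderiv 0 f) := by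
  intro m hm
  rw [coeff_pderiv, hf _ (by simpa using hm), zero_mul]

lemma aeval_eq_sum (v : Fin 2 → A2) (P : A2) :
    aeval v P = ∑ m ∈ P.support, C (coeff m P) * (v 0 ^ m 0 * v 1 ^ m 1) := by
  rw [aeval_def, eval₂_eq']
  refine Finset.sum_congr rfl fun m _ => ?_
  rw [Fin.prod_univ_two]; rfl

lemma WV.aeval {n : ℕ} {k : ℤ} (v : Fin 2 → A2) (h0 : WV 1 n (v 0)) (h1 : WV (-1) n (v 1)) (P : A2)
    (hP : ∀ m, coeff m P ≠ 0 → (m 0 : ℤ) - m 1 ≤ k) : WV k n (aeval v P) := by
  rw [aeval_eq_sum]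
  refine WV.sum _ _ _ _ fun m hm => ?_
  have := (WV.C (coeff m P) n).mul ((h0.pow (m 0)).mul (h1.pow (m 1)))
  refine this.mono ?_ le_rfl
  have := hP m (mem_support_iff.1 hm)
  linarith

end Pool.Agent.KC2
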