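import Pool.Agent.KC2.Strip

/-! The bound for an approximate symplectic change of variables. -/

set_option autoImplicit false

namespace Pool.Agent.KC2

open MvPolynomial

lemma V1_iff (f : A2) : V1 f ↔ X 1 ∣ f := by
  constructor
  · intro h
    rw [X_dvd_iff_modMonomial_eq_zero]
    ext m
    classical
    by_cases hm : Finsupp.single 1 1 ≤ m
    · rw [coeff_modMonomial_of_le _ hm]; simp
    · rw [coeff_modMonomial_of_not_le _ hm]
      rw [Finsupp.single_le_iff] at hm
      rw [h m (by omega)]; simp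
  · rintro ⟨g, rfl⟩ m hm
    classical
    rw [coeff_X_mul', if_neg]
    simp [hm]

lemma V1.add {f g : A2} (hf : V1 f) (hg : V1 g) : V1 (f + g) := by
  rw [V1_iff] at *; exact dvd_add hf hg

lemma V1.mul_right {f : A2} (hf : V1 f) (g : A2) : V1 (f * g) := by
  rw [V1_iff] at *; exact Dvd.dvd.mul_right hf g

lemma V1.mul_left {f : A2} (hf : V1 f) (g : A2) : V1 (g * f) := by
  rw [V1_iff] at *; exact Dvd.dvd.mul_left hf g

lemma V1.sum {ι : Type*} (s : Finset ι) (f : ι → A2) (h : ∀ i ∈ s, V1 (f i)) :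
    V1 (∑ i ∈ s, f i) := by
  rw [V1_iff]
  exact Finset.dvd_sum fun i hi => (V1_iff _).1 (h i hi)

/-- divided difference of a monomial -/
lemma dd_pow (n : ℕ) (x ξ : A2) (hξ : V1 ξ) (hx : WV 1 n x) (hξw : WV 1 n ξ) (k : ℕ) :
    ∃ T : A2, (x + ξ) ^ k - x ^ k = ξ * T ∧ WV ((k : ℤ) - 1) n T ∧
      V1 (T - C (k : ℂ) * x ^ (k - 1)) := by
  induction k with
  | zero => exact ⟨0, by simp, WV.zero _ _, by intro m hm; simp⟩
  | succ k ih =>
    obtain ⟨T, h1, h2, h3⟩ := ih
    refine ⟨(x + ξ) ^ k + x * T, ?_, ?_, ?_⟩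
    · have : (x + ξ) ^ (k + 1) - x ^ (k + 1) = ξ * (x + ξ) ^ k + x * ((x + ξ) ^ k - x ^ k) := by ring
      rw [this, h1]; ring
    · have e1 := (hx.add hξw).pow k
      have e2 := hx.mul h2
      push_cast
      refine WV.add (e1.mono ?_ le_rfl) (e2.mono ?_ le_rfl) <;> linarith
    · rcases Nat.eq_zero_or_pos k with rfl | hk
      · simp only [pow_zero, CharP.cast_eq_zero, map_zero, zero_mul, sub_zero, zero_add,
          Nat.cast_one, map_one, one_mul, Nat.sub_self] at *
        have : (1 + x * T - 1 : A2) = x * T := by ring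
        rw [this]; exact h3.mul_left x
      · have hk' : x ^ k = x * x ^ (k - 1) := by
          rw [← pow_succ']; congr 1; omega
        have e : (x + ξ) ^ k + x * T - C ((k + 1 : ℕ) : ℂ) * x ^ (k + 1 - 1)
            = ((x + ξ) ^ k - x ^ k) + x * (T - C (k : ℂ) * x ^ (k - 1)) := by
          rw [Nat.add_sub_cancel]
          push_cast
          rw [map_add, map_one]
          rw [mul_sub, ← mul_assoc, mul_comm x (C (k : ℂ)), mul_assoc, ← hk']
          ring
        rw [e, h1]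
        exact (hξ.mul_right _).add (h3.mul_left _)

lemma pderiv0_eq_sum (P : A2) :
    pderiv 0 P = ∑ m ∈ P.support, C (coeff m P) * (C (m 0 : ℂ) * X 0 ^ (m 0 - 1) * X 1 ^ m 1) := by
  have hP : P = ∑ m ∈ P.support, C (coeff m P) * (X 0 ^ m 0 * X 1 ^ m 1) := by
    have := aeval_eq_sum X P
    rwa [aeval_X_left, AlgHom.id_apply] at this
  calc pderiv 0 P = pderiv 0 (∑ m ∈ P.support, C (coeff m P) * (X 0 ^ m 0 * X 1 ^ m 1)) :=
        congrArg _ hP
    _ = _ := by
      rw [map_sum]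
      refine Finset.sum_congr rfl fun m _ => ?_
      rw [pderiv_C_mul, Derivation.leibniz, Derivation.leibniz_pow, Derivation.leibniz_pow]
      simp only [pderiv_X_self, smul_eq_mul, nsmul_eq_mul]
      rw [pderiv_X_of_ne (by decide : (1 : Fin 2) ≠ 0)]
      simp only [map_natCast]
      ring

/-- the divided difference of a polynomial in the first variable -/
lemma dd_poly (n : ℕ) (ξ η : A2) (hξ : V1 ξ) (hη : V1 η) (hξw : WV 1 n ξ) (hηw : WV (-1) n η)
    (k : ℤ) (P : A2) (hP : ∀ m, coeff m P ≠ 0 → (m 0 : ℤ) - m 1 ≤ k) :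
    ∃ T : A2, aeval ![X 0 + ξ, X 1 + η] P - aeval ![X 0, X 1 + η] P = ξ * T ∧ WV (k - 1) n T ∧
      V1 (T - pderiv 0 P) := by
  choose T h1 h2 h3 using dd_pow n (X 0) ξ hξ (WV.X0 n) hξw
  refine ⟨∑ m ∈ P.support, C (coeff m P) * (T (m 0) * (X 1 + η) ^ m 1), ?_, ?_, ?_⟩
  · rw [aeval_eq_sum, aeval_eq_sum, ← Finset.sum_sub_distrib, Finset.mul_sum]
    refine Finset.sum_congr rfl fun m _ => ?_
    simp only [Matrix.cons_val_zero, Matrix.cons_val_one]
    have := h1 (m 0)
    linear_combination (C (coeff m P) * (X 1 + η) ^ m 1) * this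
  · refine WV.sum _ _ _ _ fun m hm => ?_
    have e := (WV.C (coeff m P) n).mul ((h2 (m 0)).mul (((WV.X1 n).add hηw).pow (m 1)))
    have := hP m (mem_support_iff.1 hm)
    exact e.mono (by linarith) le_rfl
  · rw [pderiv0_eq_sum, ← Finset.sum_sub_distrib]
    refine V1.sum _ _ fun m _ => ?_
    have e1 : V1 ((X 1 + η) ^ m 1 - X 1 ^ m 1) := by
      rw [V1_iff] at *
      refine dvd_trans ?_ (sub_dvd_pow_sub_pow _ _ _)
      simpa using hη
    have e : C (coeff m P) * (T (m 0) * (X 1 + η) ^ m 1)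
        - C (coeff m P) * (C (m 0 : ℂ) * X 0 ^ (m 0 - 1) * X 1 ^ m 1)
        = (T (m 0) - C (m 0 : ℂ) * X 0 ^ (m 0 - 1)) * (C (coeff m P) * (X 1 + η) ^ m 1)
          + (C (coeff m P) * C (m 0 : ℂ) * X 0 ^ (m 0 - 1)) * ((X 1 + η) ^ m 1 - X 1 ^ m 1) := by
      ring
    rw [e]
    exact ((h3 _).mul_right _).add (e1.mul_left _)

/-- high powers of the ideal of the cross have no low rows -/
lemma WV.of_mem {N : ℕ} {r : A2} (h : r ∈ Ideal.span {(X 0 * X 1 : A2)} ^ N) (k : ℤ) : WV k N r := by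
  rw [Ideal.span_singleton_pow, Ideal.mem_span_singleton] at h
  obtain ⟨q, rfl⟩ := h
  intro m hm hc
  exfalso
  apply hc
  classical
  have e : ((X 0 * X 1 : A2) ^ N * q) = X 1 ^ N * (X 0 ^ N * q) := by ring
  rw [e, X_pow_eq_monomial, coeff_monomial_mul', if_neg]
  rw [Finsupp.single_le_iff]; omega

lemma V1.of_mem {r : A2} (h : r ∈ Ideal.span {(X 0 * X 1 : A2)}) : V1 r := by
  rw [V1_iff]
  rw [Ideal.mem_span_singleton] at h
  exact (Dvd.intro_left _ rfl).trans h

end Pool.Agent.KC2
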