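import Pool.Agent.KC2.Main

/-!
# Keller maps agreeing on the coordinate cross: uniqueness when no axis is exceptional

Let `F` and `G` be Keller maps of `ℂ²` which agree on the cross `{xy = 0}`, and suppose that neither
coordinate axis is exceptional for `F` or for `G`. Then `F = G`. Here the `x`-axis is non-exceptional
for `H = (H₀, H₁)` if some component `H_k` contains a monomial `x^a`, `a ≥ 1`, and all its monomials
`x^i y^j` satisfy `i ≤ j + a`; the `y`-axis is treated in the same way.
-/

set_option autoImplicit false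

open MvPolynomial

namespace Pool.Agent.KC2.StripRigidity

/-- The coordinate axis on which the variable `s` runs (and the other variable `t` vanishes) is
non-exceptional for the polynomial map `H`: for some component `H k` and some `a ≥ 1` the monomial
`X s ^ a` occurs in `H k`, and every monomial occurring in `H k` has its degree in the variable `s`
at most `a` plus its degree in the variable `t`. -/
def NonExceptional (s t : Fin 2) (H : Fin 2 → MvPolynomial (Fin 2) ℂ) : Prop :=
  ∃ k : Fin 2, ∃ a : ℕ, 1 ≤ a ∧ coeff (Finsupp.single s a) (H k) ≠ 0 ∧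
    ∀ m ∈ (H k).support, m s ≤ m t + a

theorem result (F G : Fin 2 → MvPolynomial (Fin 2) ℂ)
    (hF : pderiv 0 (F 0) * pderiv 1 (F 1) - pderiv 1 (F 0) * pderiv 0 (F 1) = 1)
    (hG : pderiv 0 (G 0) * pderiv 1 (G 1) - pderiv 1 (G 0) * pderiv 0 (G 1) = 1)
    (hFG : ∀ p : Fin 2 → ℂ, p 0 * p 1 = 0 → ∀ i, eval p (F i) = eval p (G i))
    (hFx : NonExceptional 0 1 F) (hFy : NonExceptional 1 0 F)
    (hGx : NonExceptional 0 1 G) (hGy : NonExceptional 1 0 G) :
    F = G := by
  have conv0 : ∀ H : Fin 2 → MvPolynomial (Fin 2) ℂ, NonExceptional 0 1 H → KC2.Good H := by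
    rintro H ⟨k, a, ha, hc, hs⟩
    exact ⟨k, a, ha, hc, fun m hm => hs m (mem_support_iff.2 hm)⟩
  have conv1 : ∀ H : Fin 2 → MvPolynomial (Fin 2) ℂ, NonExceptional 1 0 H →
      KC2.Good fun i => KC2.sw (H i) := by
    rintro H ⟨k, a, ha, hc, hs⟩
    refine ⟨k, a, ha, ?_, ?_⟩
    · show coeff _ (KC2.sw (H k)) ≠ 0
      rw [KC2.sw_coeff, KC2.swm_single]; exact hc
    · intro m hm
      have hm' : coeff m (KC2.sw (H k)) ≠ 0 := hm
      rw [KC2.sw_coeff] at hm'
      have := hs _ (mem_support_iff.2 hm')
      rwa [KC2.swm_0, KC2.swm_1] at this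
  refine KC2.main F G hF hG ?_ (conv0 F hFx) (conv0 G hGx) (conv1 F hFy) (conv1 G hGy)
  intro i m hm
  exact KellerCross.coeff_eq_of_cross (G i) (F i) (fun v hv => hFG v hv i) m hm

end Pool.Agent.KC2.StripRigidity
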