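import Mathlib

/-! Taylor expansion to first order and the chain rule for polynomials in two variables. -/

set_option autoImplicit false

namespace Pool.Agent.KC2

open MvPolynomial

abbrev A2 := MvPolynomial (Fin 2) ℂ

noncomputable def br (P Q : A2) : A2 := pderiv 0 P * pderiv 1 Q - pderiv 1 P * pderiv 0 Q

/-- First order Taylor expansion modulo the square of an ideal. -/
theorem taylor (I : Ideal A2) (v e : Fin 2 → A2) (he : ∀ i, e i ∈ I) (P : A2) :
    aeval (fun i => v i + e i) P - aeval v P
      - (e 0 * aeval v (pderiv 0 P) + e 1 * aeval v (pderiv 1 P)) ∈ I ^ 2 := by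
  induction P using MvPolynomial.induction_on with
  | C a => simp
  | add p q hp hq =>
    have := Ideal.add_mem _ hp hq
    convert this using 1
    simp only [map_add]; ring
  | mul_X p i hp =>
    set Tp := aeval (fun i => v i + e i) p with hTp
    set Vp := aeval v p with hVp
    set L := e 0 * aeval v (pderiv 0 p) + e 1 * aeval v (pderiv 1 p) with hL
    have hLI : L ∈ I := Ideal.add_mem _ (Ideal.mul_mem_right _ _ (he 0)) (Ideal.mul_mem_right _ _ (he 1))
    have h1 : (Tp - Vp - L) * (v i + e i) ∈ I ^ 2 := Ideal.mul_mem_right _ _ hp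
    have h2 : L * e i ∈ I ^ 2 := by
      rw [pow_two]; exact Ideal.mul_mem_mul hLI (he i)
    have h3 := Ideal.add_mem _ h1 h2
    have key : aeval (fun i => v i + e i) (p * X i) - aeval v (p * X i)
      - (e 0 * aeval v (pderiv 0 (p * X i)) + e 1 * aeval v (pderiv 1 (p * X i)))
      = (Tp - Vp - L) * (v i + e i) + L * e i := by
      simp only [map_mul, aeval_X, Derivation.leibniz, smul_eq_mul, map_add, pderiv_X]
      fin_cases i
      · simp [hL, hTp, hVp, Pi.single_apply]; ring
      · simp [hL, hTp, hVp, Pi.single_apply]; ring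
    rw [key]; exact h3

/-- Chain rule. -/
theorem pderiv_aeval (i : Fin 2) (v : Fin 2 → A2) (P : A2) :
    pderiv i (aeval v P) = aeval v (pderiv 0 P) * pderiv i (v 0) + aeval v (pderiv 1 P) * pderiv i (v 1) := by
  induction P using MvPolynomial.induction_on with
  | C a => simp
  | add p q hp hq => simp only [map_add, hp, hq]; ring
  | mul_X p j hp =>
    simp only [map_mul, aeval_X, Derivation.leibniz, smul_eq_mul, map_add, pderiv_X, hp]
    fin_cases j
    · simp [Pi.single_apply]; ring
    · simp [Pi.single_apply]; ring

theorem br_aeval (v : Fin 2 → A2) (P Q : A2) :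
    br (aeval v P) (aeval v Q) = aeval v (br P Q) * br (v 0) (v 1) := by
  simp only [br, pderiv_aeval, map_sub, map_mul]
  ring

end Pool.Agent.KC2
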